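import Pool.Agent.LibMG10.G5
import Pool.Agent.LibMX34.RA

set_option autoImplicit false

/-! MP_ed98ad_ag, block H (helper10): `reg0`, `regA`, `gen` for all sections `PhiS k T σ` of the universal germ. -/

namespace Pool.Agent.LibMG10

open Pool.Agent.LibMX34 Pool.Agent.LibMR10

variable (k : Type) [Field k] {r : ℕ} (T : Fin 9 → Fin r → ℤ) (σ : Fin 9 → ℤ)

/-- the field `reg0` of `Geo k (PhiS k T σ) G` -/
theorem reg0_PhiS [CharZero k] : ∃ e : Fin 4 → MvPowerSeries (Fin (r + 3)) k,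
    RegPair (mn (jacM k fun j => atZero k (PhiS k T σ j)) 3) (∑ j, e j * mn (jacM k fun j => atZero k (PhiS k T σ j)) j) :=
  reg0_of_C k (PhiS k T σ) fun j => by rw [at_phi, kill_phi0]

/-- the field `regA` of `Geo k (PhiS k T σ) G` -/
theorem regA_PhiS [CharZero k] : ∃ e : Fin 4 → MvPowerSeries (Fin (r + 3)) (PowerSeries k),
    RegPair (mn (jacM (PowerSeries k) (PhiS k T σ)) 3) (∑ j, e j * mn (jacM (PowerSeries k) (PhiS k T σ)) j) :=
  regA_of k (PhiS k T σ) (reg0_PhiS k T σ)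

/-- the hypothesis `gen` of `LibGF7.stable_off` -/
theorem gen_PhiS (b : MvPowerSeries (Fin (r + 3)) (PowerSeries k)) :
    ∃ c : Fin 2 → Fin 2 → Fin 2 → MvPowerSeries (Fin (r + 4)) (PowerSeries k),
      b = ∑ i₀, ∑ i₁, ∑ i₂, MvPowerSeries.subst (unf (PowerSeries k) (PhiS k T σ)) (c i₀ i₁ i₂) *
        (MvPowerSeries.X (Pool.Agent.LibGF7.ix 0) ^ (i₀ : ℕ) * MvPowerSeries.X (Pool.Agent.LibGF7.ix 1) ^ (i₁ : ℕ) *
          MvPowerSeries.X (Pool.Agent.LibGF7.ix 2) ^ (i₂ : ℕ)) := by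
  refine genGF7 k (ww r) (Finsupp.single (vx r 1) 1 + Finsupp.single (vx r 2) 1) (PhiS k T σ) (phi_const k T σ) ?_ ?_ ?_ ?_ b
  · rw [at_phi]
    exact lead_phi0_zero k T
  · rw [at_phi]
    exact lead_phi0_one k T
  · rw [at_phi]
    exact lead_phi0_two k T
  · rw [at_phi]
    exact lead_phi0_three k T

end Pool.Agent.LibMG10
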