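import Mathlib

set_option autoImplicit false

/-! MP_ed98ad_ag, block H (helper10): generation of a power series ring over the image of a finite map with monomial leading terms. -/

namespace Pool.Agent.LibMG10

section lead

variable {σ K : Type} [CommRing K] (w : σ → ℕ)

/-- `h = X^a + (terms of weight > weight of a)` -/
def Lead (a : σ →₀ ℕ) (h : MvPowerSeries σ K) : Prop :=
  ∀ d : σ →₀ ℕ, Finsupp.weight w d ≤ Finsupp.weight w a → d ≠ a → MvPowerSeries.coeff d h = 0

/-- `Lead` and the leading coefficient is `1` -/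
def Lead1 (a : σ →₀ ℕ) (h : MvPowerSeries σ K) : Prop := Lead w a h ∧ MvPowerSeries.coeff a h = 1

theorem Lead1.one : Lead1 w 0 (1 : MvPowerSeries σ K) := by
  classical
  refine ⟨?_, ?_⟩
  · intro d _ hd
    rw [MvPowerSeries.coeff_one, if_neg hd]
  · rw [MvPowerSeries.coeff_one, if_pos rfl]

theorem Lead1.mul {a b : σ →₀ ℕ} {f g : MvPowerSeries σ K} (hf : Lead1 w a f) (hg : Lead1 w b g) : Lead1 w (a + b) (f * g) := by
  classical
  have key : ∀ d p q : σ →₀ ℕ, p + q = d → Finsupp.weight w d ≤ Finsupp.weight w (a + b) → ¬ (p = a ∧ q = b) →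
      MvPowerSeries.coeff p f * MvPowerSeries.coeff q g = 0 := by
    intro d p q hpq hd hne
    rw [map_add, ← hpq, map_add] at hd
    by_cases hp : Finsupp.weight w p ≤ Finsupp.weight w a
    · by_cases hpa : p = a
      · have hqb : q ≠ b := fun h => hne ⟨hpa, h⟩
        rw [hg.1 q (by rw [hpa] at hd; omega) hqb, mul_zero]
      · rw [hf.1 p hp hpa, zero_mul]
    · have hq : Finsupp.weight w q ≤ Finsupp.weight w b := by omega
      have hqb : q ≠ b := by
        intro h
        rw [h] at hd
        omega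
      rw [hg.1 q hq hqb, mul_zero]
  refine ⟨?_, ?_⟩
  · intro d hd hne
    rw [MvPowerSeries.coeff_mul]
    apply Finset.sum_eq_zero
    rintro ⟨p, q⟩ hpq
    have h1 : p + q = d := Finset.HasAntidiagonal.mem_antidiagonal.1 hpq
    refine key d p q h1 hd ?_
    rintro ⟨rfl, rfl⟩
    exact hne h1.symm
  · rw [MvPowerSeries.coeff_mul, Finset.sum_eq_single (a, b)]
    · show MvPowerSeries.coeff a f * MvPowerSeries.coeff b g = 1
      rw [hf.2, hg.2, one_mul]
    · rintro ⟨p, q⟩ hpq hne
      have h1 : p + q = a + b := Finset.HasAntidiagonal.mem_antidiagonal.1 hpq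
      refine key (a + b) p q h1 le_rfl ?_
      rintro ⟨h2, h3⟩
      exact hne (Prod.ext h2 h3)
    · intro h
      exact absurd ((Finset.HasAntidiagonal.mem_antidiagonal (n := a + b) (a := (a, b))).2 (Eq.refl (a + b))) h

theorem Lead1.pow {a : σ →₀ ℕ} {f : MvPowerSeries σ K} (hf : Lead1 w a f) (n : ℕ) : Lead1 w (n • a) (f ^ n) := by
  induction n with
  | zero =>
    rw [zero_smul, pow_zero]
    exact Lead1.one w
  | succ n ih =>
    rw [succ_nsmul, pow_succ]
    exact ih.mul w hf

theorem Lead1.prod {ι : Type} (S : Finset ι) (a : ι → σ →₀ ℕ) (f : ι → MvPowerSeries σ K) (hf : ∀ i ∈ S, Lead1 w (a i) (f i)) :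
    Lead1 w (∑ i ∈ S, a i) (∏ i ∈ S, f i) := by
  classical
  induction S using Finset.induction_on with
  | empty =>
    rw [Finset.sum_empty, Finset.prod_empty]
    exact Lead1.one w
  | insert i S hi ih =>
    rw [Finset.sum_insert hi, Finset.prod_insert hi]
    exact (hf i (Finset.mem_insert_self i S)).mul w (ih fun j hj => hf j (Finset.mem_insert_of_mem hj))

theorem Lead1.finsupp_prod {τ : Type} (l : τ → σ →₀ ℕ) (f : τ → MvPowerSeries σ K) (hf : ∀ j, Lead1 w (l j) (f j)) (m : τ →₀ ℕ) :
    Lead1 w (m.sum fun j n => n • l j) (m.prod fun j n => f j ^ n) :=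
  Lead1.prod w m.support (fun j => m j • l j) (fun j => f j ^ m j) fun j _ => (hf j).pow w (m j)

end lead

end Pool.Agent.LibMG10
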