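import Pool.Agent.LibMG10.G1

set_option autoImplicit false

/-! MP_ed98ad_ag, block H (helper10): generation over a field. -/

namespace Pool.Agent.LibMG10

section gen

variable {σ τ ι K : Type} [Field K] [Fintype ι] (w : σ → ℕ) (l : τ → σ →₀ ℕ) (eb : ι → σ →₀ ℕ)
  (f : τ → MvPowerSeries σ K)

/-- the exponent `∑ m_j l_j` -/
noncomputable def LL (m : τ →₀ ℕ) : σ →₀ ℕ := m.sum fun j n => n • l j

/-- `∑ X^(e_i) v_i(f)` -/
noncomputable def TT (v : ι → MvPowerSeries τ K) : MvPowerSeries σ K :=
  ∑ i, MvPowerSeries.monomial (eb i) (1 : K) * MvPowerSeries.subst f (v i)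

theorem coeff_TT (hs : MvPowerSeries.HasSubst f) (v : ι → MvPowerSeries τ K) (e : σ →₀ ℕ) :
    MvPowerSeries.coeff e (TT eb f v) = ∑ i, ∑ᶠ m : τ →₀ ℕ, MvPowerSeries.coeff m (v i) *
      MvPowerSeries.coeff e (MvPowerSeries.monomial (eb i) (1 : K) * m.prod fun j n => f j ^ n) := by
  classical
  rw [TT, map_sum]
  refine Finset.sum_congr rfl fun i _ => ?_
  rw [MvPowerSeries.coeff_monomial_mul]
  by_cases h : eb i ≤ e
  · rw [if_pos h, one_mul, MvPowerSeries.coeff_subst hs]
    refine finsum_congr fun m => ?_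
    rw [MvPowerSeries.coeff_monomial_mul, if_pos h, one_mul, smul_eq_mul]
  · rw [if_neg h]
    symm
    apply finsum_eq_zero_of_forall_eq_zero
    intro m
    rw [MvPowerSeries.coeff_monomial_mul, if_neg h, mul_zero]

theorem TT_sub (hs : MvPowerSeries.HasSubst f) (v v' : ι → MvPowerSeries τ K) :
    TT eb f (v - v') = TT eb f v - TT eb f v' := by
  rw [TT, TT, TT, ← Finset.sum_sub_distrib]
  refine Finset.sum_congr rfl fun i _ => ?_
  rw [Pi.sub_apply, MvPowerSeries.subst_sub hs, mul_sub]

theorem TT_add (hs : MvPowerSeries.HasSubst f) (v v' : ι → MvPowerSeries τ K) :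
    TT eb f (v + v') = TT eb f v + TT eb f v' := by
  rw [TT, TT, TT, ← Finset.sum_add_distrib]
  refine Finset.sum_congr rfl fun i _ => ?_
  rw [Pi.add_apply, MvPowerSeries.subst_add hs, mul_add]

variable (hf : ∀ j, Lead1 w (l j) (f j))

include hf

theorem lead_mon (i : ι) (m : τ →₀ ℕ) :
    Lead1 w (eb i + LL l m) (MvPowerSeries.monomial (eb i) (1 : K) * m.prod fun j n => f j ^ n) := by
  classical
  refine Lead1.mul w ?_ (Lead1.finsupp_prod w l f hf m)
  refine ⟨?_, ?_⟩
  · intro d _ hd
    rw [MvPowerSeries.coeff_monomial, if_neg hd]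
  · rw [MvPowerSeries.coeff_monomial, if_pos rfl]

/-- (T1) -/
theorem TT_fil (hs : MvPowerSeries.HasSubst f) (N : ℕ) (v : ι → MvPowerSeries τ K)
    (hv : ∀ i m, Finsupp.weight w (eb i + LL l m) < N → MvPowerSeries.coeff m (v i) = 0)
    (e : σ →₀ ℕ) (he : Finsupp.weight w e < N) : MvPowerSeries.coeff e (TT eb f v) = 0 := by
  rw [coeff_TT eb f hs]
  apply Finset.sum_eq_zero
  intro i _
  apply finsum_eq_zero_of_forall_eq_zero
  intro m
  by_cases h : Finsupp.weight w (eb i + LL l m) < N
  · rw [hv i m h, zero_mul]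
  · rw [(lead_mon w l eb f hf i m).1 e (by omega), mul_zero]
    rintro rfl
    exact h he

/-- (T2), one step -/
theorem TT_step (hs : MvPowerSeries.HasSubst f) (dec : (σ →₀ ℕ) → ι × (τ →₀ ℕ))
    (hdec : ∀ e, eb (dec e).1 + LL l (dec e).2 = e) (N : ℕ) (b : MvPowerSeries σ K)
    (hb : ∀ e, Finsupp.weight w e < N → MvPowerSeries.coeff e b = 0) (v : ι → MvPowerSeries τ K)
    (hv1 : ∀ e, MvPowerSeries.coeff (dec e).2 (v (dec e).1) = MvPowerSeries.coeff e b)
    (hv2 : ∀ i m, (¬ ∃ e, dec e = (i, m)) → MvPowerSeries.coeff m (v i) = 0)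
    (e : σ →₀ ℕ) (he : Finsupp.weight w e < N + 1) : MvPowerSeries.coeff e (b - TT eb f v) = 0 := by
  classical
  rw [map_sub, coeff_TT eb f hs, sub_eq_zero]
  -- all terms but one vanish
  have hterm : ∀ i m, (i, m) ≠ dec e → MvPowerSeries.coeff m (v i) *
      MvPowerSeries.coeff e (MvPowerSeries.monomial (eb i) (1 : K) * m.prod fun j n => f j ^ n) = 0 := by
    intro i m hne
    by_cases hd : ∃ e', dec e' = (i, m)
    · obtain ⟨e', he'⟩ := hd
      have h1 : MvPowerSeries.coeff m (v i) = MvPowerSeries.coeff e' b := by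
        have := hv1 e'
        rw [he'] at this
        exact this
      have h2 : eb i + LL l m = e' := by
        have := hdec e'
        rw [he'] at this
        exact this
      by_cases h3 : Finsupp.weight w e' < N
      · rw [h1, hb e' h3, zero_mul]
      · have h4 : e ≠ e' := by
          rintro rfl
          exact hne he'.symm
        rw [(lead_mon w l eb f hf i m).1 e (by rw [h2]; omega) (by rw [h2]; exact h4), mul_zero]
    · rw [hv2 i m hd, zero_mul]
  rw [Finset.sum_eq_single (dec e).1]
  · rw [finsum_eq_single _ (dec e).2]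
    · rw [hv1]
      have h5 := (lead_mon w l eb f hf (dec e).1 (dec e).2).2
      rw [hdec] at h5
      rw [h5, mul_one]
    · intro m hm
      apply hterm
      intro h
      exact hm (congrArg Prod.snd h)
  · intro i _ hi
    apply finsum_eq_zero_of_forall_eq_zero
    intro m
    apply hterm
    intro h
    exact hi (congrArg Prod.fst h)
  · intro h
    exact absurd (Finset.mem_univ _) h

/-- GENERATION over a field -/
theorem TT_surj (hs : MvPowerSeries.HasSubst f) (dec : (σ →₀ ℕ) → ι × (τ →₀ ℕ))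
    (hdec : ∀ e, eb (dec e).1 + LL l (dec e).2 = e) (b : MvPowerSeries σ K) : ∃ v, TT eb f v = b := by
  classical
  -- the operator E
  let E : MvPowerSeries σ K → ι → MvPowerSeries τ K := fun b i m =>
    if ∃ e, dec e = (i, m) then MvPowerSeries.coeff (eb i + LL l m) b else 0
  have hE : ∀ b i m, MvPowerSeries.coeff m (E b i) = if ∃ e, dec e = (i, m) then MvPowerSeries.coeff (eb i + LL l m) b else 0 :=
    fun _ _ _ => rfl
  have hE1 : ∀ b e, MvPowerSeries.coeff (dec e).2 (E b (dec e).1) = MvPowerSeries.coeff e b := by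
    intro b e
    rw [hE, if_pos ⟨e, rfl⟩, hdec]
  have hE2 : ∀ b i m, (¬ ∃ e, dec e = (i, m)) → MvPowerSeries.coeff m (E b i) = 0 := by
    intro b i m h
    rw [hE, if_neg h]
  let bs : ℕ → MvPowerSeries σ K := fun n => Nat.rec b (fun _ b' => b' - TT eb f (E b')) n
  have hbs : ∀ n, bs (n + 1) = bs n - TT eb f (E (bs n)) := fun _ => rfl
  have hfil : ∀ n e, Finsupp.weight w e < n → MvPowerSeries.coeff e (bs n) = 0 := by
    intro n
    induction n with
    | zero =>
      intro e he
      omega
    | succ n ih =>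
      intro e he
      rw [hbs]
      exact TT_step w l eb f hf hs dec hdec n (bs n) ih (E (bs n)) (hE1 _) (hE2 _) e he
  let V : ι → MvPowerSeries τ K := fun i m =>
    ∑ n ∈ Finset.range (Finsupp.weight w (eb i + LL l m) + 1), MvPowerSeries.coeff m (E (bs n) i)
  have hV : ∀ i m, MvPowerSeries.coeff m (V i) =
      ∑ n ∈ Finset.range (Finsupp.weight w (eb i + LL l m) + 1), MvPowerSeries.coeff m (E (bs n) i) := fun _ _ => rfl
  refine ⟨V, ?_⟩
  -- partial sums
  have hpart : ∀ N, TT eb f (∑ n ∈ Finset.range N, E (bs n)) = b - bs N := by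
    intro N
    induction N with
    | zero =>
      rw [Finset.sum_range_zero]
      have h0 : TT eb f (0 : ι → MvPowerSeries τ K) = 0 := by
        have := TT_sub eb f hs (0 : ι → MvPowerSeries τ K) 0
        rw [sub_self, sub_self] at this
        exact this
      rw [h0]
      show 0 = b - b
      rw [sub_self]
    | succ N ih =>
      rw [Finset.sum_range_succ, TT_add eb f hs, ih, hbs]
      ring
  have hzero : ∀ m i n, Finsupp.weight w (eb i + LL l m) < n → MvPowerSeries.coeff m (E (bs n) i) = 0 := by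
    intro m i n hn
    rw [hE]
    split_ifs
    · exact hfil n _ hn
    · rfl
  have hdiff : ∀ N e, Finsupp.weight w e < N → MvPowerSeries.coeff e (TT eb f V - b) = 0 := by
    intro N e he
    have h1 : TT eb f V - b = TT eb f (V - ∑ n ∈ Finset.range N, E (bs n)) - bs N := by
      rw [TT_sub eb f hs, hpart]
      ring
    rw [h1, map_sub, hfil N e he, sub_zero]
    refine TT_fil w l eb f hf hs N _ ?_ e he
    intro i m hm
    rw [Pi.sub_apply, map_sub, hV, Finset.sum_apply, map_sum, sub_eq_zero]
    refine Finset.sum_subset ?_ ?_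
    · intro n hn
      rw [Finset.mem_range] at hn ⊢
      omega
    · intro n _ hn
      rw [Finset.mem_range] at hn
      exact hzero m i n (by omega)
  rw [← sub_eq_zero]
  ext e
  rw [hdiff (Finsupp.weight w e + 1) e (by omega), map_zero]

end gen

end Pool.Agent.LibMG10
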