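import Pool.Agent.LibMG10.G2
import Pool.Agent.LibMX34.IDefs

set_option autoImplicit false

/-! MP_ed98ad_ag, block H (helper10): generation for unfoldings `(Φ_1, .., Φ_4, u)` with `Φ_j = x_j^2 + ..` for `j = 1, 2, 3`. -/

namespace Pool.Agent.LibMG10

open Pool.Agent.LibMX34

section

variable (r : ℕ)

/-- the variables `x, y, z` -/
def vx (i : Fin 3) : Fin (r + 3) := Fin.castLE (by omega) i

/-- the variables `u` -/
def vu (a : Fin r) : Fin (r + 3) := a.succ.succ.succ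

/-- leading exponents of the unfolding -/
noncomputable def lead (a3 : Fin (r + 3) →₀ ℕ) : Fin (r + 4) → (Fin (r + 3) →₀ ℕ) :=
  Fin.cons (Finsupp.single (vx r 0) 2) (Fin.cons (Finsupp.single (vx r 1) 2) (Fin.cons (Finsupp.single (vx r 2) 2)
    (Fin.cons a3 fun a : Fin r => Finsupp.single (vu r a) 1)))

/-- the exponents `x^i y^j z^l` -/
noncomputable def ebas (i : Fin 2 × Fin 2 × Fin 2) : Fin (r + 3) →₀ ℕ :=
  Finsupp.single (vx r 0) (i.1 : ℕ) + Finsupp.single (vx r 1) (i.2.1 : ℕ) + Finsupp.single (vx r 2) (i.2.2 : ℕ)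

/-- the decomposition of an exponent -/
noncomputable def decm (e : Fin (r + 3) →₀ ℕ) : Fin (r + 4) →₀ ℕ :=
  Finsupp.equivFunOnFinite.symm (Fin.cons (e (vx r 0) / 2) (Fin.cons (e (vx r 1) / 2) (Fin.cons (e (vx r 2) / 2)
    (Fin.cons 0 fun a : Fin r => e (vu r a)))))

/-- the decomposition of an exponent -/
noncomputable def dec (e : Fin (r + 3) →₀ ℕ) : (Fin 2 × Fin 2 × Fin 2) × (Fin (r + 4) →₀ ℕ) :=
  ((⟨e (vx r 0) % 2, Nat.mod_lt _ (by omega)⟩, ⟨e (vx r 1) % 2, Nat.mod_lt _ (by omega)⟩,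
    ⟨e (vx r 2) % 2, Nat.mod_lt _ (by omega)⟩), decm r e)

theorem dec_spec (a3 : Fin (r + 3) →₀ ℕ) (e : Fin (r + 3) →₀ ℕ) :
    ebas r (dec r e).1 + LL (lead r a3) (dec r e).2 = e := by
  classical
  have h1 : LL (lead r a3) (decm r e) = (e (vx r 0) / 2) • Finsupp.single (vx r 0) 2 + ((e (vx r 1) / 2) • Finsupp.single (vx r 1) 2 +
      ((e (vx r 2) / 2) • Finsupp.single (vx r 2) 2 + (0 • a3 + ∑ a : Fin r, e (vu r a) • Finsupp.single (vu r a) 1))) := by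
    have h := Finsupp.sum_fintype (decm r e) (fun j n => n • lead r a3 j) (fun i => zero_smul _ _)
    rw [LL, h, Fin.sum_univ_succ, Fin.sum_univ_succ, Fin.sum_univ_succ, Fin.sum_univ_succ]
    rfl
  show ebas r (dec r e).1 + LL (lead r a3) (decm r e) = e
  rw [h1]
  ext i
  have hsum : (∑ a : Fin r, e (vu r a) • (Finsupp.single (vu r a) 1 : Fin (r + 3) →₀ ℕ)) i =
      ∑ a : Fin r, e (vu r a) * (Finsupp.single (vu r a) 1 : Fin (r + 3) →₀ ℕ) i := by
    rw [Finsupp.finsetSum_apply]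
    rfl
  have hv : ∀ j : Fin 3, (vx r j : ℕ) = (j : ℕ) := fun j => rfl
  have hu : ∀ a : Fin r, (vu r a : ℕ) = (a : ℕ) + 3 := fun a => rfl
  have hsv : ∀ (j : Fin 3) (n : ℕ), (Finsupp.single (vx r j) n : Fin (r + 3) →₀ ℕ) i = if (i : ℕ) = (j : ℕ) then n else 0 := by
    intro j n
    rw [Finsupp.single_apply]
    congr 1
    rw [eq_iff_iff, Fin.ext_iff, hv]
    exact eq_comm
  have hsu : ∀ (a : Fin r) (n : ℕ), (Finsupp.single (vu r a) n : Fin (r + 3) →₀ ℕ) i = if (i : ℕ) = (a : ℕ) + 3 then n else 0 := by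
    intro a n
    rw [Finsupp.single_apply]
    congr 1
    rw [eq_iff_iff, Fin.ext_iff, hu]
    exact eq_comm
  simp only [ebas, dec, Finsupp.add_apply, Finsupp.smul_apply, zero_smul, Finsupp.zero_apply, zero_add, hsum, hsv, hsu, smul_eq_mul]
  by_cases h3 : (i : ℕ) < 3
  · have h0 : ∑ a : Fin r, e (vu r a) * (if (i : ℕ) = (a : ℕ) + 3 then 1 else 0) = 0 := by
      apply Finset.sum_eq_zero
      intro a _
      rw [if_neg (by omega), mul_zero]
    rw [h0]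
    have hi : i = vx r ⟨(i : ℕ), h3⟩ := Fin.ext rfl
    have key : ∀ j : Fin 3, i = vx r j → (if (i : ℕ) = ((0 : Fin 3) : ℕ) then e (vx r 0) % 2 else 0) +
        (if (i : ℕ) = ((1 : Fin 3) : ℕ) then e (vx r 1) % 2 else 0) + (if (i : ℕ) = ((2 : Fin 3) : ℕ) then e (vx r 2) % 2 else 0) +
        (e (vx r 0) / 2 * (if (i : ℕ) = ((0 : Fin 3) : ℕ) then 2 else 0) + (e (vx r 1) / 2 * (if (i : ℕ) = ((1 : Fin 3) : ℕ) then 2 else 0) +
        (e (vx r 2) / 2 * (if (i : ℕ) = ((2 : Fin 3) : ℕ) then 2 else 0) + 0))) = e i := by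
      intro j hj
      subst hj
      rw [hv]
      fin_cases j <;> simp <;> omega
    exact key _ hi
  · obtain ⟨a, ha⟩ : ∃ a : Fin r, i = vu r a := ⟨⟨(i : ℕ) - 3, by omega⟩, Fin.ext (by rw [hu]; simp only; omega)⟩
    have h0 : ∑ b : Fin r, e (vu r b) * (if (i : ℕ) = (b : ℕ) + 3 then 1 else 0) = e i := by
      rw [Finset.sum_eq_single a]
      · rw [ha, hu, if_pos rfl, mul_one]
      · intro b _ hb
        rw [if_neg, mul_zero]
        rw [ha, hu]
        intro h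
        apply hb
        apply Fin.ext
        omega
      · intro h
        exact absurd (Finset.mem_univ _) h
    have hj : ∀ j : Fin 3, ¬ (i : ℕ) = (j : ℕ) := fun j => by
      have := j.2
      omega
    rw [h0]
    simp only [if_neg (hj 0), if_neg (hj 1), if_neg (hj 2), mul_zero, zero_add]

end

theorem lead_unf (k : Type) [Field k] {r : ℕ} (w : Fin (r + 3) → ℕ) (a3 : Fin (r + 3) →₀ ℕ)
    (Φ : Fin 4 → MvPowerSeries (Fin (r + 3)) k)
    (h0 : Lead1 w (Finsupp.single (vx r 0) 2) (Φ 0)) (h1 : Lead1 w (Finsupp.single (vx r 1) 2) (Φ 1))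
    (h2 : Lead1 w (Finsupp.single (vx r 2) 2) (Φ 2)) (h3 : Lead1 w a3 (Φ 3)) (j : Fin (r + 4)) :
    Lead1 w (lead r a3 j) (unf k Φ j) := by
  classical
  revert j
  refine Fin.cases h0 (Fin.cases h1 (Fin.cases h2 (Fin.cases h3 fun a => ?_)))
  show Lead1 w (Finsupp.single (vu r a) 1) (MvPowerSeries.X (vu r a))
  refine ⟨?_, ?_⟩
  · intro d _ hd
    rw [MvPowerSeries.coeff_X, if_neg hd]
  · rw [MvPowerSeries.coeff_X, if_pos rfl]

/-- GENERATION over `k` -/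
theorem gen0 (k : Type) [Field k] {r : ℕ} (w : Fin (r + 3) → ℕ) (a3 : Fin (r + 3) →₀ ℕ)
    (Φ : Fin 4 → MvPowerSeries (Fin (r + 3)) k) (hs : MvPowerSeries.HasSubst (unf k Φ))
    (h0 : Lead1 w (Finsupp.single (vx r 0) 2) (Φ 0)) (h1 : Lead1 w (Finsupp.single (vx r 1) 2) (Φ 1))
    (h2 : Lead1 w (Finsupp.single (vx r 2) 2) (Φ 2)) (h3 : Lead1 w a3 (Φ 3)) (b : MvPowerSeries (Fin (r + 3)) k) :
    ∃ v : Fin 2 × Fin 2 × Fin 2 → MvPowerSeries (Fin (r + 4)) k, b = ∑ i,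
      MvPowerSeries.monomial (ebas r i) (1 : k) * MvPowerSeries.subst (unf k Φ) (v i) := by
  obtain ⟨v, hv⟩ := TT_surj w (lead r a3) (ebas r) (unf k Φ) (lead_unf k w a3 Φ h0 h1 h2 h3) hs (dec r) (dec_spec r a3) b
  exact ⟨v, hv.symm⟩

end Pool.Agent.LibMG10
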