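import Pool.Agent.LibMG10.G3
import Pool.Agent.LibMR10.R3
import Pool.Agent.LibMX34.I4
import Pool.Agent.LibGF7.Defs

set_option autoImplicit false

/-! MP_ed98ad_ag, block H (helper10): generation over `k[[s]]`. -/

namespace Pool.Agent.LibMG10

open Pool.Agent.LibMX34 Pool.Agent.LibMR10

/-- GENERATION over `k[[s]]` -/
theorem genS (k : Type) [Field k] {r : ℕ} (w : Fin (r + 3) → ℕ) (a3 : Fin (r + 3) →₀ ℕ)
    (Φ : Fin 4 → MvPowerSeries (Fin (r + 3)) (PowerSeries k)) (hc : ∀ j, MvPowerSeries.constantCoeff (Φ j) = 0)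
    (h0 : Lead1 w (Finsupp.single (vx r 0) 2) (atZero k (Φ 0))) (h1 : Lead1 w (Finsupp.single (vx r 1) 2) (atZero k (Φ 1)))
    (h2 : Lead1 w (Finsupp.single (vx r 2) 2) (atZero k (Φ 2))) (h3 : Lead1 w a3 (atZero k (Φ 3)))
    (b : MvPowerSeries (Fin (r + 3)) (PowerSeries k)) :
    ∃ v : Fin 2 × Fin 2 × Fin 2 → MvPowerSeries (Fin (r + 4)) (PowerSeries k), b = ∑ i,
      MvPowerSeries.monomial (ebas r i) (1 : PowerSeries k) * MvPowerSeries.subst (unf (PowerSeries k) Φ) (v i) := by
  have hcu : ∀ j, MvPowerSeries.constantCoeff (unf (PowerSeries k) Φ j) = 0 := unf_const Φ hc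
  have hsA : MvPowerSeries.HasSubst (unf (PowerSeries k) Φ) := MvPowerSeries.hasSubst_of_constantCoeff_zero hcu
  have hc0 : ∀ j, MvPowerSeries.constantCoeff (unf k (fun j => atZero k (Φ j)) j) = 0 := by
    intro j
    apply unf_const
    intro j
    rw [atZero, ← MvPowerSeries.coeff_zero_eq_constantCoeff_apply, MvPowerSeries.coeff_map, MvPowerSeries.coeff_zero_eq_constantCoeff_apply,
      hc j, map_zero]
  have hs0 : MvPowerSeries.HasSubst (unf k fun j => atZero k (Φ j)) := MvPowerSeries.hasSubst_of_constantCoeff_zero hc0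
  -- one step
  have step : ∀ b : MvPowerSeries (Fin (r + 3)) (PowerSeries k), ∃ (v : Fin 2 × Fin 2 × Fin 2 → MvPowerSeries (Fin (r + 4)) (PowerSeries k))
      (b' : MvPowerSeries (Fin (r + 3)) (PowerSeries k)), b = (∑ i,
      MvPowerSeries.monomial (ebas r i) (1 : PowerSeries k) * MvPowerSeries.subst (unf (PowerSeries k) Φ) (v i)) + sV k * b' := by
    intro b
    obtain ⟨v0, hv0⟩ := gen0 k w a3 (fun j => atZero k (Φ j)) hs0 h0 h1 h2 h3 (atZero k b)
    choose v hv using fun i => at_surj' k (v0 i)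
    obtain ⟨b', hb'⟩ := at_ker' k (b - ∑ i,
      MvPowerSeries.monomial (ebas r i) (1 : PowerSeries k) * MvPowerSeries.subst (unf (PowerSeries k) Φ) (v i)) (by
        rw [map_sub, map_sum, sub_eq_zero]
        rw [hv0]
        refine Finset.sum_congr rfl fun i _ => ?_
        rw [map_mul, at_sub k _ hcu, hv]
        congr 1
        · rw [atZero, MvPowerSeries.map_monomial, show PowerSeries.constantCoeff (1 : PowerSeries k) = 1 from map_one _]
        · have h4 : (fun j => atZero k (unf (PowerSeries k) Φ j)) = unf k fun j => atZero k (Φ j) := by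
            funext j
            exact at_unf k Φ j
          rw [h4])
    exact ⟨v, b', by rw [← hb']; ring⟩
  choose fv fb hfb using step
  let bs : ℕ → MvPowerSeries (Fin (r + 3)) (PowerSeries k) := fun n => Nat.rec b (fun _ b' => fb b') n
  have hbs : ∀ n, bs n = (∑ i,
      MvPowerSeries.monomial (ebas r i) (1 : PowerSeries k) * MvPowerSeries.subst (unf (PowerSeries k) Φ) (fv (bs n) i)) + sV k * bs (n + 1) := by
    intro n
    exact hfb (bs n)
  have hsum : ∀ i, ∃ C, ∀ N, sV k ^ N ∣ C - ∑ n ∈ Finset.range N, sV k ^ n * fv (bs n) i := fun i => sum_sV k _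
  choose C hC using hsum
  refine ⟨C, ?_⟩
  have hpart : ∀ N, b = (∑ i, MvPowerSeries.monomial (ebas r i) (1 : PowerSeries k) *
      MvPowerSeries.subst (unf (PowerSeries k) Φ) (∑ n ∈ Finset.range N, sV k ^ n * fv (bs n) i)) + sV k ^ N * bs N := by
    intro N
    induction N with
    | zero =>
      have hz : MvPowerSeries.subst (unf (PowerSeries k) Φ) (0 : MvPowerSeries (Fin (r + 4)) (PowerSeries k)) = 0 := by
        rw [← MvPowerSeries.coe_substAlgHom hsA, map_zero]
      simp only [Finset.range_zero, Finset.sum_empty, hz, mul_zero, Finset.sum_const_zero, pow_zero, one_mul, zero_add]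
      rfl
    | succ N ih =>
      have h5 : ∀ i, MvPowerSeries.subst (unf (PowerSeries k) Φ) (∑ n ∈ Finset.range (N + 1), sV k ^ n * fv (bs n) i) =
          MvPowerSeries.subst (unf (PowerSeries k) Φ) (∑ n ∈ Finset.range N, sV k ^ n * fv (bs n) i) +
          sV k ^ N * MvPowerSeries.subst (unf (PowerSeries k) Φ) (fv (bs N) i) := by
        intro i
        rw [Finset.sum_range_succ, MvPowerSeries.subst_add hsA]
        congr 1
        have h6 : (sV k ^ N * fv (bs N) i : MvPowerSeries (Fin (r + 4)) (PowerSeries k)) = (PowerSeries.X ^ N : PowerSeries k) • fv (bs N) i := by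
          rw [MvPowerSeries.smul_eq_C_mul, map_pow]
          rfl
        rw [h6, MvPowerSeries.subst_smul hsA, MvPowerSeries.smul_eq_C_mul, map_pow]
        rfl
      simp only [h5, mul_add, Finset.sum_add_distrib]
      have h7 : (∑ i, MvPowerSeries.monomial (ebas r i) (1 : PowerSeries k) *
          (sV k ^ N * MvPowerSeries.subst (unf (PowerSeries k) Φ) (fv (bs N) i))) = sV k ^ N * ∑ i,
          MvPowerSeries.monomial (ebas r i) (1 : PowerSeries k) * MvPowerSeries.subst (unf (PowerSeries k) Φ) (fv (bs N) i) := by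
        rw [Finset.mul_sum]
        refine Finset.sum_congr rfl fun i _ => ?_
        ring
      rw [h7]
      have h8 := hbs N
      linear_combination ih + sV k ^ N * h8
  rw [← sub_eq_zero]
  apply sep_sV k
  intro N
  choose D hD using fun i => hC i N
  have h9 : ∀ i, MvPowerSeries.subst (unf (PowerSeries k) Φ) (C i) =
      MvPowerSeries.subst (unf (PowerSeries k) Φ) (∑ n ∈ Finset.range N, sV k ^ n * fv (bs n) i) +
      sV k ^ N * MvPowerSeries.subst (unf (PowerSeries k) Φ) (D i) := by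
    intro i
    have h10 : C i = (∑ n ∈ Finset.range N, sV k ^ n * fv (bs n) i) + (PowerSeries.X ^ N : PowerSeries k) • D i := by
      rw [MvPowerSeries.smul_eq_C_mul, map_pow]
      have := hD i
      rw [sV] at this ⊢
      linear_combination this
    rw [h10, MvPowerSeries.subst_add hsA, MvPowerSeries.subst_smul hsA, MvPowerSeries.smul_eq_C_mul, map_pow]
    rfl
  refine ⟨bs N - ∑ i, MvPowerSeries.monomial (ebas r i) (1 : PowerSeries k) * MvPowerSeries.subst (unf (PowerSeries k) Φ) (D i), ?_⟩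
  simp only [h9, mul_add, Finset.sum_add_distrib]
  have h7 : (∑ i, MvPowerSeries.monomial (ebas r i) (1 : PowerSeries k) *
      (sV k ^ N * MvPowerSeries.subst (unf (PowerSeries k) Φ) (D i))) = sV k ^ N * ∑ i,
      MvPowerSeries.monomial (ebas r i) (1 : PowerSeries k) * MvPowerSeries.subst (unf (PowerSeries k) Φ) (D i) := by
    rw [Finset.mul_sum]
    refine Finset.sum_congr rfl fun i _ => ?_
    ring
  rw [h7]
  have h11 := hpart N
  linear_combination h11

/-- the form used in `LibGF7` -/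
theorem genGF7 (k : Type) [Field k] {r : ℕ} (w : Fin (r + 3) → ℕ) (a3 : Fin (r + 3) →₀ ℕ)
    (Φ : Fin 4 → MvPowerSeries (Fin (r + 3)) (PowerSeries k)) (hc : ∀ j, MvPowerSeries.constantCoeff (Φ j) = 0)
    (h0 : Lead1 w (Finsupp.single (vx r 0) 2) (atZero k (Φ 0))) (h1 : Lead1 w (Finsupp.single (vx r 1) 2) (atZero k (Φ 1)))
    (h2 : Lead1 w (Finsupp.single (vx r 2) 2) (atZero k (Φ 2))) (h3 : Lead1 w a3 (atZero k (Φ 3)))
    (b : MvPowerSeries (Fin (r + 3)) (PowerSeries k)) :
    ∃ c : Fin 2 → Fin 2 → Fin 2 → MvPowerSeries (Fin (r + 4)) (PowerSeries k),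
      b = ∑ i₀, ∑ i₁, ∑ i₂, MvPowerSeries.subst (unf (PowerSeries k) Φ) (c i₀ i₁ i₂) *
        (MvPowerSeries.X (Pool.Agent.LibGF7.ix 0) ^ (i₀ : ℕ) * MvPowerSeries.X (Pool.Agent.LibGF7.ix 1) ^ (i₁ : ℕ) *
          MvPowerSeries.X (Pool.Agent.LibGF7.ix 2) ^ (i₂ : ℕ)) := by
  obtain ⟨v, hv⟩ := genS k w a3 Φ hc h0 h1 h2 h3 b
  refine ⟨fun i₀ i₁ i₂ => v (i₀, i₁, i₂), ?_⟩
  rw [hv, Fintype.sum_prod_type]
  refine Finset.sum_congr rfl fun i₀ _ => ?_
  rw [Fintype.sum_prod_type]
  refine Finset.sum_congr rfl fun i₁ _ => Finset.sum_congr rfl fun i₂ _ => ?_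
  rw [mul_comm]
  congr 1
  rw [MvPowerSeries.X_pow_eq, MvPowerSeries.X_pow_eq, MvPowerSeries.X_pow_eq, MvPowerSeries.monomial_mul_monomial,
    MvPowerSeries.monomial_mul_monomial, one_mul, one_mul]
  rfl

end Pool.Agent.LibMG10
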