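import Pool.Agent.LibMG10.G4
import Pool.Agent.LibMR10.R7
import Pool.Agent.LibMX34.RDefs2

set_option autoImplicit false

/-! MP_ed98ad_ag, block H (helper10): the hypotheses of `genGF7`, `reg0_of_C` for all sections of the universal germ. -/

namespace Pool.Agent.LibMG10

open Pool.Agent.LibMX34 Pool.Agent.LibMR10

section minw

variable {σ K : Type} [CommRing K] (w : σ → ℕ)

/-- all terms have weight `≥ N` -/
def MinW (N : ℕ) (h : MvPowerSeries σ K) : Prop := ∀ d : σ →₀ ℕ, Finsupp.weight w d < N → MvPowerSeries.coeff d h = 0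

theorem MinW.mul {N M : ℕ} {f g : MvPowerSeries σ K} (hf : MinW w N f) (hg : MinW w M g) : MinW w (N + M) (f * g) := by
  classical
  intro d hd
  rw [MvPowerSeries.coeff_mul]
  apply Finset.sum_eq_zero
  rintro ⟨p, q⟩ hpq
  have h1 : p + q = d := Finset.HasAntidiagonal.mem_antidiagonal.1 hpq
  rw [← h1, map_add] at hd
  by_cases hp : Finsupp.weight w p < N
  · rw [hf p hp, zero_mul]
  · rw [hg q (by omega), mul_zero]

theorem MinW.add {N : ℕ} {f g : MvPowerSeries σ K} (hf : MinW w N f) (hg : MinW w N g) : MinW w N (f + g) := by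
  intro d hd
  rw [map_add, hf d hd, hg d hd, add_zero]

theorem MinW.sum {ι : Type} (S : Finset ι) {N : ℕ} {f : ι → MvPowerSeries σ K} (hf : ∀ i ∈ S, MinW w N (f i)) : MinW w N (∑ i ∈ S, f i) := by
  intro d hd
  rw [map_sum]
  exact Finset.sum_eq_zero fun i hi => hf i hi d hd

theorem MinW.zero_any (h : MvPowerSeries σ K) : MinW w 0 h := fun d hd => absurd hd (by omega)

theorem MinW.mono {N M : ℕ} (hNM : M ≤ N) {f : MvPowerSeries σ K} (hf : MinW w N f) : MinW w M f := fun d hd => hf d (by omega)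

theorem MinW.X (i : σ) : MinW w (w i) (MvPowerSeries.X i : MvPowerSeries σ K) := by
  classical
  intro d hd
  rw [MvPowerSeries.coeff_X, if_neg]
  rintro rfl
  rw [Finsupp.weight_single] at hd
  simp at hd

theorem MinW.left {N : ℕ} (c : MvPowerSeries σ K) {f : MvPowerSeries σ K} (hf : MinW w N f) : MinW w N (c * f) := by
  have h := MinW.mul w (MinW.zero_any w c) hf
  rwa [zero_add] at h

theorem Lead1.add_min {a : σ →₀ ℕ} {f h : MvPowerSeries σ K} (hf : Lead1 w a f) (hh : MinW w (Finsupp.weight w a + 1) h) :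
    Lead1 w a (f + h) := by
  refine ⟨?_, ?_⟩
  · intro d hd hne
    rw [map_add, hf.1 d hd hne, hh d (by omega), add_zero]
  · rw [map_add, hf.2, hh a (by omega), add_zero]

theorem Lead1.X (i : σ) : Lead1 w (Finsupp.single i 1) (MvPowerSeries.X i : MvPowerSeries σ K) := by
  classical
  refine ⟨?_, ?_⟩
  · intro d _ hd
    rw [MvPowerSeries.coeff_X, if_neg hd]
  · rw [MvPowerSeries.coeff_X, if_pos rfl]

theorem Lead1.X_sq (i : σ) : Lead1 w (Finsupp.single i 2) (MvPowerSeries.X i ^ 2 : MvPowerSeries σ K) := by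
  have h := (Lead1.X (K := K) w i).pow w 2
  rwa [Finsupp.smul_single, smul_eq_mul, mul_one] at h

end minw

section inst

variable (k : Type) [Field k] {r : ℕ} (T : Fin 9 → Fin r → ℤ) (σ : Fin 9 → ℤ)


theorem pB0_x (i : Fin 3) : pB0 k T (Fin.castLE (by omega) i) = MvPowerSeries.X (xv r i) := by
  have h : (Fin.castLE (by omega) i : Fin 12) = (Fin.castAdd 9 i : Fin (3 + 9)) := rfl
  rw [h]
  exact Fin.append_left (fun i : Fin 3 => (MvPowerSeries.X (xv r i) : MvPowerSeries (Fin (r + 3)) k)) (LB0 k T) i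

theorem pB0_v (t : Fin 9) : pB0 k T (Fin.natAdd 3 t) = LB0 k T t :=
  Fin.append_right (fun i : Fin 3 => (MvPowerSeries.X (xv r i) : MvPowerSeries (Fin (r + 3)) k)) (LB0 k T) t

theorem phi0_zero : Phi0 k T 0 = (MvPowerSeries.X (xv r 0) : MvPowerSeries (Fin (r + 3)) k) ^ 2 + (LB0 k T 0 * (MvPowerSeries.X (xv r 1) : MvPowerSeries (Fin (r + 3)) k) + LB0 k T 1 * (MvPowerSeries.X (xv r 2) : MvPowerSeries (Fin (r + 3)) k)) := by
  have h : Phi0 k T 0 = pB0 k T 0 ^ 2 + pB0 k T 3 * pB0 k T 1 + pB0 k T 4 * pB0 k T 2 := by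
    show MvPolynomial.aeval (pB0 k T) (MvPolynomial.X 0 ^ 2 + MvPolynomial.X 3 * MvPolynomial.X 1 + MvPolynomial.X 4 * MvPolynomial.X 2) = _
    simp only [map_add, map_mul, map_pow, MvPolynomial.aeval_X]
  rw [h, add_assoc]
  have e0 : pB0 k T 0 = (MvPowerSeries.X (xv r 0) : MvPowerSeries (Fin (r + 3)) k) := pB0_x k T 0
  have e1 : pB0 k T 1 = (MvPowerSeries.X (xv r 1) : MvPowerSeries (Fin (r + 3)) k) := pB0_x k T 1
  have e2 : pB0 k T 2 = (MvPowerSeries.X (xv r 2) : MvPowerSeries (Fin (r + 3)) k) := pB0_x k T 2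
  have e3 : pB0 k T 3 = LB0 k T 0 := pB0_v k T 0
  have e4 : pB0 k T 4 = LB0 k T 1 := pB0_v k T 1
  rw [e0, e1, e2, e3, e4]

theorem phi0_one : Phi0 k T 1 = (MvPowerSeries.X (xv r 1) : MvPowerSeries (Fin (r + 3)) k) ^ 2 + ((MvPowerSeries.X (xv r 0) : MvPowerSeries (Fin (r + 3)) k) * (MvPowerSeries.X (xv r 2) : MvPowerSeries (Fin (r + 3)) k) + LB0 k T 2 * (MvPowerSeries.X (xv r 0) : MvPowerSeries (Fin (r + 3)) k) + LB0 k T 3 * (MvPowerSeries.X (xv r 2) : MvPowerSeries (Fin (r + 3)) k)) := by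
  have h : Phi0 k T 1 = pB0 k T 1 ^ 2 + pB0 k T 0 * pB0 k T 2 + pB0 k T 5 * pB0 k T 0 + pB0 k T 6 * pB0 k T 2 := by
    show MvPolynomial.aeval (pB0 k T) (MvPolynomial.X 1 ^ 2 + MvPolynomial.X 0 * MvPolynomial.X 2 + MvPolynomial.X 5 * MvPolynomial.X 0 +
      MvPolynomial.X 6 * MvPolynomial.X 2) = _
    simp only [map_add, map_mul, map_pow, MvPolynomial.aeval_X]
  rw [h]
  have e0 : pB0 k T 0 = (MvPowerSeries.X (xv r 0) : MvPowerSeries (Fin (r + 3)) k) := pB0_x k T 0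
  have e1 : pB0 k T 1 = (MvPowerSeries.X (xv r 1) : MvPowerSeries (Fin (r + 3)) k) := pB0_x k T 1
  have e2 : pB0 k T 2 = (MvPowerSeries.X (xv r 2) : MvPowerSeries (Fin (r + 3)) k) := pB0_x k T 2
  have e3 : pB0 k T 5 = LB0 k T 2 := pB0_v k T 2
  have e4 : pB0 k T 6 = LB0 k T 3 := pB0_v k T 3
  rw [e0, e1, e2, e3, e4]
  ring

theorem phi0_two : Phi0 k T 2 = (MvPowerSeries.X (xv r 2) : MvPowerSeries (Fin (r + 3)) k) ^ 2 + ((MvPowerSeries.X (xv r 0) : MvPowerSeries (Fin (r + 3)) k) * (MvPowerSeries.X (xv r 1) : MvPowerSeries (Fin (r + 3)) k) + LB0 k T 4 * (MvPowerSeries.X (xv r 0) : MvPowerSeries (Fin (r + 3)) k) + LB0 k T 5 * (MvPowerSeries.X (xv r 1) : MvPowerSeries (Fin (r + 3)) k)) := by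
  have h : Phi0 k T 2 = pB0 k T 2 ^ 2 + pB0 k T 0 * pB0 k T 1 + pB0 k T 7 * pB0 k T 0 + pB0 k T 8 * pB0 k T 1 := by
    show MvPolynomial.aeval (pB0 k T) (MvPolynomial.X 2 ^ 2 + MvPolynomial.X 0 * MvPolynomial.X 1 + MvPolynomial.X 7 * MvPolynomial.X 0 +
      MvPolynomial.X 8 * MvPolynomial.X 1) = _
    simp only [map_add, map_mul, map_pow, MvPolynomial.aeval_X]
  rw [h]
  have e0 : pB0 k T 0 = (MvPowerSeries.X (xv r 0) : MvPowerSeries (Fin (r + 3)) k) := pB0_x k T 0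
  have e1 : pB0 k T 1 = (MvPowerSeries.X (xv r 1) : MvPowerSeries (Fin (r + 3)) k) := pB0_x k T 1
  have e2 : pB0 k T 2 = (MvPowerSeries.X (xv r 2) : MvPowerSeries (Fin (r + 3)) k) := pB0_x k T 2
  have e3 : pB0 k T 7 = LB0 k T 4 := pB0_v k T 4
  have e4 : pB0 k T 8 = LB0 k T 5 := pB0_v k T 5
  rw [e0, e1, e2, e3, e4]
  ring

theorem phi0_three : Phi0 k T 3 = (MvPowerSeries.X (xv r 1) : MvPowerSeries (Fin (r + 3)) k) * (MvPowerSeries.X (xv r 2) : MvPowerSeries (Fin (r + 3)) k) + (LB0 k T 6 * (MvPowerSeries.X (xv r 0) : MvPowerSeries (Fin (r + 3)) k) + LB0 k T 7 * (MvPowerSeries.X (xv r 1) : MvPowerSeries (Fin (r + 3)) k) + LB0 k T 8 * (MvPowerSeries.X (xv r 2) : MvPowerSeries (Fin (r + 3)) k)) := by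
  have h : Phi0 k T 3 = pB0 k T 1 * pB0 k T 2 + pB0 k T 9 * pB0 k T 0 + pB0 k T 10 * pB0 k T 1 + pB0 k T 11 * pB0 k T 2 := by
    show MvPolynomial.aeval (pB0 k T) (MvPolynomial.X 1 * MvPolynomial.X 2 + MvPolynomial.X 9 * MvPolynomial.X 0 +
      MvPolynomial.X 10 * MvPolynomial.X 1 + MvPolynomial.X 11 * MvPolynomial.X 2) = _
    simp only [map_add, map_mul, MvPolynomial.aeval_X]
  rw [h]
  have e0 : pB0 k T 0 = (MvPowerSeries.X (xv r 0) : MvPowerSeries (Fin (r + 3)) k) := pB0_x k T 0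
  have e1 : pB0 k T 1 = (MvPowerSeries.X (xv r 1) : MvPowerSeries (Fin (r + 3)) k) := pB0_x k T 1
  have e2 : pB0 k T 2 = (MvPowerSeries.X (xv r 2) : MvPowerSeries (Fin (r + 3)) k) := pB0_x k T 2
  have e3 : pB0 k T 9 = LB0 k T 6 := pB0_v k T 6
  have e4 : pB0 k T 10 = LB0 k T 7 := pB0_v k T 7
  have e5 : pB0 k T 11 = LB0 k T 8 := pB0_v k T 8
  rw [e0, e1, e2, e3, e4, e5]
  ring

/-! the net at `u = 0` -/

theorem kill_LB0 (t : Fin 9) : kill k (uvars r : Set (Fin (r + 3))) (LB0 k T t) = 0 := by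
  rw [LB0, map_sum]
  apply Finset.sum_eq_zero
  intro a _
  rw [map_mul, kill_X_mem, mul_zero]
  simp only [uvars, Finset.coe_filter, Finset.mem_univ, true_and, Set.mem_setOf_eq]
  show 3 ≤ ((a.succ.succ.succ : Fin (r + 3)) : ℕ)
  simp only [Fin.val_succ]
  omega

theorem kill_xv (i : Fin 3) : kill k (uvars r : Set (Fin (r + 3))) (MvPowerSeries.X (xv r i)) = MvPowerSeries.X (xv r i) :=
  kill_X_not_mem k _ (xv_not_mem r i)

theorem kill_phi0 (j : Fin 4) : kill k (uvars r : Set (Fin (r + 3))) (Phi0 k T j) = qC k r j := by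
  fin_cases j
  · show kill k (uvars r : Set (Fin (r + 3))) (Phi0 k T 0) = (MvPowerSeries.X (xv r 0) : MvPowerSeries (Fin (r + 3)) k) ^ 2
    rw [phi0_zero]
    simp only [map_add, map_mul, map_pow, kill_LB0, kill_xv, zero_mul, add_zero]
  · show kill k (uvars r : Set (Fin (r + 3))) (Phi0 k T 1) = (MvPowerSeries.X (xv r 1) : MvPowerSeries (Fin (r + 3)) k) ^ 2 + (MvPowerSeries.X (xv r 0) : MvPowerSeries (Fin (r + 3)) k) * (MvPowerSeries.X (xv r 2) : MvPowerSeries (Fin (r + 3)) k)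
    rw [phi0_one]
    simp only [map_add, map_mul, map_pow, kill_LB0, kill_xv, zero_mul, add_zero]
  · show kill k (uvars r : Set (Fin (r + 3))) (Phi0 k T 2) = (MvPowerSeries.X (xv r 2) : MvPowerSeries (Fin (r + 3)) k) ^ 2 + (MvPowerSeries.X (xv r 0) : MvPowerSeries (Fin (r + 3)) k) * (MvPowerSeries.X (xv r 1) : MvPowerSeries (Fin (r + 3)) k)
    rw [phi0_two]
    simp only [map_add, map_mul, map_pow, kill_LB0, kill_xv, zero_mul, add_zero]
  · show kill k (uvars r : Set (Fin (r + 3))) (Phi0 k T 3) = (MvPowerSeries.X (xv r 1) : MvPowerSeries (Fin (r + 3)) k) * (MvPowerSeries.X (xv r 2) : MvPowerSeries (Fin (r + 3)) k)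
    rw [phi0_three]
    simp only [map_add, map_mul, kill_LB0, kill_xv, zero_mul, add_zero]

/-! leading terms -/

/-- the weights -/
def ww (r : ℕ) (i : Fin (r + 3)) : ℕ := if (i : ℕ) = 0 then 3 else if (i : ℕ) < 3 then 2 else 5

theorem ww_zero : ww r (xv r 0) = 3 := rfl

theorem ww_one : ww r (xv r 1) = 2 := rfl

theorem ww_two : ww r (xv r 2) = 2 := rfl

theorem min_LB0 (t : Fin 9) : MinW (ww r) 5 (LB0 k T t) := by
  rw [LB0]
  apply MinW.sum
  intro a _
  apply MinW.left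
  have h := MinW.X (K := k) (ww r) (a.succ.succ.succ : Fin (r + 3))
  have h2 : ww r (a.succ.succ.succ : Fin (r + 3)) = 5 := by
    rw [ww, if_neg, if_neg]
    · simp only [Fin.val_succ]
      omega
    · simp only [Fin.val_succ]
      omega
  rwa [h2] at h

theorem min_X (i : Fin 3) : MinW (ww r) 2 (MvPowerSeries.X (xv r i) : MvPowerSeries (Fin (r + 3)) k) := by
  have h := MinW.X (K := k) (ww r) (xv r i)
  refine h.mono (ww r) ?_
  fin_cases i
  · show 2 ≤ ww r (xv r 0)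
    rw [ww_zero]
    omega
  · show 2 ≤ ww r (xv r 1)
    rw [ww_one]
  · show 2 ≤ ww r (xv r 2)
    rw [ww_two]

theorem min_LX (t : Fin 9) (i : Fin 3) : MinW (ww r) 7 (LB0 k T t * MvPowerSeries.X (xv r i)) :=
  (min_LB0 k T t).mul (ww r) (min_X k i)

theorem min_xX (i : Fin 3) : MinW (ww r) 5 ((MvPowerSeries.X (xv r 0) : MvPowerSeries (Fin (r + 3)) k) * MvPowerSeries.X (xv r i)) := by
  have h := MinW.X (K := k) (ww r) (xv r 0)
  rw [ww_zero] at h
  exact h.mul (ww r) (min_X k i)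

theorem lead_phi0_zero : Lead1 (ww r) (Finsupp.single (vx r 0) 2) (Phi0 k T 0) := by
  rw [phi0_zero]
  apply Lead1.add_min
  · exact Lead1.X_sq (ww r) (xv r 0)
  · have h : Finsupp.weight (ww r) (Finsupp.single (vx r 0) 2) + 1 = 7 := by
      rw [Finsupp.weight_single]
      rfl
    rw [h]
    exact (min_LX k T 0 1).add (ww r) (min_LX k T 1 2)

theorem lead_phi0_one : Lead1 (ww r) (Finsupp.single (vx r 1) 2) (Phi0 k T 1) := by
  rw [phi0_one]
  apply Lead1.add_min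
  · exact Lead1.X_sq (ww r) (xv r 1)
  · have h : Finsupp.weight (ww r) (Finsupp.single (vx r 1) 2) + 1 = 5 := by
      rw [Finsupp.weight_single]
      rfl
    rw [h]
    exact ((min_xX k 2).add (ww r) ((min_LX k T 2 0).mono (ww r) (by omega))).add (ww r) ((min_LX k T 3 2).mono (ww r) (by omega))

theorem lead_phi0_two : Lead1 (ww r) (Finsupp.single (vx r 2) 2) (Phi0 k T 2) := by
  rw [phi0_two]
  apply Lead1.add_min
  · exact Lead1.X_sq (ww r) (xv r 2)
  · have h : Finsupp.weight (ww r) (Finsupp.single (vx r 2) 2) + 1 = 5 := by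
      rw [Finsupp.weight_single]
      rfl
    rw [h]
    exact ((min_xX k 1).add (ww r) ((min_LX k T 4 0).mono (ww r) (by omega))).add (ww r) ((min_LX k T 5 1).mono (ww r) (by omega))

theorem lead_phi0_three : Lead1 (ww r) (Finsupp.single (vx r 1) 1 + Finsupp.single (vx r 2) 1) (Phi0 k T 3) := by
  rw [phi0_three]
  apply Lead1.add_min
  · exact (Lead1.X (ww r) (xv r 1)).mul (ww r) (Lead1.X (ww r) (xv r 2))
  · have h : Finsupp.weight (ww r) (Finsupp.single (vx r 1) 1 + Finsupp.single (vx r 2) 1) + 1 = 5 := by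
      rw [map_add, Finsupp.weight_single, Finsupp.weight_single]
      rfl
    rw [h]
    exact (((min_LX k T 6 0).mono (ww r) (by omega)).add (ww r) ((min_LX k T 7 1).mono (ww r) (by omega))).add (ww r)
      ((min_LX k T 8 2).mono (ww r) (by omega))

end inst

end Pool.Agent.LibMG10
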